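import Pool.Agent.W531.SI.Doubling

/-!
# Nets with many far points at bounded distance
-/

set_option autoImplicit false

open Filter Topology

namespace Pool.Agent.W531.SI

variable {V : Type*}

/-- the threshold function -/
def thr (M R s : ℕ) : ℕ := 2 * (M * (R + 1)) ^ s

theorem thr_succ (M R s : ℕ) : thr M R (s + 1) = M * (R + 1) * thr M R s := by
  unfold thr; ring

theorem thr_pos (M R s : ℕ) (hM : 1 ≤ M) : 0 < thr M R s := by
  unfold thr; positivity

theorem thr_mono (M R : ℕ) (hM : 1 ≤ M) {s t : ℕ} (h : s ≤ t) : thr M R s ≤ thr M R t := by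
  unfold thr
  have h1 : 0 < M * (R + 1) := by positivity
  have := Nat.pow_le_pow_right h1 h
  omega

theorem exists_chain_net {G : SimpleGraph V} (hG : G.Connected) {k : ℕ} (hk : 1 ≤ k) (M R : ℕ)
    (hM : 1 ≤ M) (u : V) (I : Finset V) (hball : ∀ w ∈ I, G.dist u w ≤ R * k)
    (hsep : ∀ w ∈ I, ∀ w' ∈ I, w ≠ w' → 6 * k ≤ G.dist w w')
    (hcard : thr M R R * (R + 1) ≤ I.card) :
    ∃ N, IsNet G k N ∧ ∃ (a : N) (J : Finset V) (y : V → N), J.card = M ∧
      (∀ w ∈ J, (netGraph G k N).dist a (y w) ≤ R) ∧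
      ∀ w ∈ J, ∀ w' ∈ J, w ≠ w' → 4 * k < G.dist (y w : V) (y w') := by
  classical
  -- the common level
  obtain ⟨q, hq, hcard'⟩ := Finset.exists_le_card_fiber_of_mul_le_card_of_maps_to
    (s := I) (t := Finset.range (R + 1)) (f := fun w => G.dist u w / k) (n := thr M R R)
    (fun w hw => by
      rw [Finset.mem_range]
      exact Nat.lt_succ_of_le (Nat.div_le_of_le_mul (by rw [mul_comm]; exact hball w hw)))
    ⟨0, by simp⟩ (by rw [Finset.card_range, mul_comm]; exact hcard)
  rw [Finset.mem_range] at hq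
  set Iq := I.filter (fun w => G.dist u w / k = q) with hIq
  have hIq1 : ∀ w ∈ Iq, w ∈ I := fun w hw => (Finset.mem_filter.1 hw).1
  have hIq2 : ∀ w ∈ Iq, q * k ≤ G.dist u w ∧ G.dist u w < q * k + k := by
    intro w hw
    have h1 : G.dist u w / k = q := (Finset.mem_filter.1 hw).2
    have h2 := Nat.div_mul_le_self (G.dist u w) k
    have h3 := Nat.lt_div_mul_add (a := G.dist u w) (b := k) (by omega)
    rw [h1] at h2 h3
    exact ⟨h2, h3⟩
  choose γ hγ0 hγ1 hγ2 using fun w => exists_geodesic hG u w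
  let P : V → ℕ → V := fun w j => γ w (j * k)
  have hP0 : ∀ w, P w 0 = u := fun w => by simp [P, hγ0]
  have hPd : ∀ w ∈ Iq, ∀ i j, i ≤ j → j ≤ q → G.dist (P w i) (P w j) = (j - i) * k := by
    intro w hw i j hij hjq
    have h1 := (hIq2 w hw).1
    have h2 : i * k ≤ j * k := Nat.mul_le_mul_right k hij
    have h3 : j * k ≤ q * k := Nat.mul_le_mul_right k hjq
    simp only [P]
    rw [hγ2 w (i * k) (j * k) h2 (h3.trans h1), Nat.sub_mul]
  have hPu : ∀ w ∈ Iq, ∀ j, j ≤ q → G.dist u (P w j) = j * k := by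
    intro w hw j hj
    have := hPd w hw 0 j (Nat.zero_le _) hj
    rwa [hP0, Nat.sub_zero] at this
  have hPw : ∀ w ∈ Iq, G.dist (P w q) w < k := by
    intro w hw
    have h1 := (hIq2 w hw)
    have h2 := hγ2 w (q * k) (G.dist u w) h1.1 le_rfl
    rw [hγ1] at h2
    have h3 : G.dist (P w q) w = G.dist u w - q * k := h2
    omega
  let near : ℕ → V → V → Prop := fun j w w' => G.dist (P w j) (P w' j) < k
  have hnsymm : ∀ j w w', near j w w' → near j w' w := by
    intro j w w' h
    show G.dist (P w' j) (P w j) < k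
    rw [SimpleGraph.dist_comm]
    exact h
  have hnrefl : ∀ j w, near j w w := by
    intro j w
    show G.dist (P w j) (P w j) < k
    rw [SimpleGraph.dist_self]
    omega
  let c : ℕ → V → ℕ := fun j w => (Iq.filter (fun w' => near j w w')).card
  let Pr : ℕ → Prop := fun j => ∃ w ∈ Iq, thr M R (q - j) ≤ c j w
  have hIqne : Iq.Nonempty := by
    rw [← Finset.card_pos]
    exact lt_of_lt_of_le (thr_pos M R R hM) hcard'
  have hPr0 : Pr 0 := by
    obtain ⟨w, hw⟩ := hIqne
    refine ⟨w, hw, ?_⟩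
    have h1 : Iq.filter (fun w' => near 0 w w') = Iq := by
      apply Finset.filter_true_of_mem
      intro w' _
      show G.dist (P w 0) (P w' 0) < k
      rw [hP0, hP0, SimpleGraph.dist_self]
      omega
    show thr M R (q - 0) ≤ (Iq.filter (fun w' => near 0 w w')).card
    rw [h1]
    exact (thr_mono M R hM (by omega)).trans hcard'
  have hPrq : ¬ Pr q := by
    rintro ⟨w, hw, h⟩
    have h1 : 1 < (Iq.filter (fun w' => near q w w')).card := by
      have h2 : thr M R (q - q) = 2 := by simp [thr]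
      rw [h2] at h
      exact h
    obtain ⟨w', hw', hne⟩ := Finset.exists_mem_ne h1 w
    rw [Finset.mem_filter] at hw'
    have h2 : G.dist (P w q) (P w' q) < k := hw'.2
    have h3 := hPw w hw
    have h4 := hPw w' hw'.1
    have h5 := hsep w (hIq1 w hw) w' (hIq1 w' hw'.1) hne.symm
    have h6 := hG.dist_triangle (u := w) (v := P w q) (w := w')
    have h7 := hG.dist_triangle (u := P w q) (v := P w' q) (w := w')
    rw [SimpleGraph.dist_comm (u := w) (v := P w q)] at h6
    omega
  let js := Nat.findGreatest Pr q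
  have hjs : Pr js := Nat.findGreatest_spec (Nat.zero_le q) hPr0
  have hjsq : js < q := by
    rcases Nat.lt_or_ge js q with h | h
    · exact h
    · have h1 : js = q := le_antisymm (Nat.findGreatest_le q) h
      rw [h1] at hjs
      exact absurd hjs hPrq
  have hjs' : ∀ j, js < j → j ≤ q → ¬ Pr j := fun j h1 h2 => Nat.findGreatest_is_greatest h1 h2
  obtain ⟨i0, hi0, hci0⟩ := hjs
  set I' := Iq.filter (fun w' => near js i0 w') with hI'
  have hI'card : thr M R (q - js) ≤ I'.card := hci0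
  let conf : V → V → Prop := fun w w' => ∃ j, js < j ∧ j ≤ q ∧ near j w w'
  have hcsymm : ∀ w w', conf w w' → conf w' w := by
    rintro w w' ⟨j, h1, h2, h3⟩
    exact ⟨j, h1, h2, hnsymm j w w' h3⟩
  have hcrefl : ∀ w, conf w w := fun w => ⟨q, hjsq, le_rfl, hnrefl q w⟩
  have hdeg : ∀ w ∈ I', {w' ∈ (I' : Set V) | conf w w'}.ncard ≤ (R + 1) * thr M R (q - js - 1) := by
    intro w hw
    have hwq : w ∈ Iq := (Finset.mem_filter.1 hw).1
    have hsub : {w' ∈ (I' : Set V) | conf w w'} ⊆
        ((Finset.Icc (js + 1) q).biUnion (fun j => Iq.filter (fun w' => near j w w')) :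
          Finset V) := by
      rintro w' ⟨h1, j, h2, h3, h4⟩
      rw [Finset.mem_coe, Finset.mem_biUnion]
      refine ⟨j, Finset.mem_Icc.2 ⟨h2, h3⟩, ?_⟩
      rw [Finset.mem_filter]
      exact ⟨(Finset.mem_filter.1 (Finset.mem_coe.1 h1)).1, h4⟩
    refine (Set.ncard_le_ncard hsub (Finset.finite_toSet _)).trans ?_
    rw [Set.ncard_coe_finset]
    refine Finset.card_biUnion_le.trans ?_
    refine (Finset.sum_le_card_nsmul _ _ (thr M R (q - js - 1)) ?_).trans ?_
    · intro j hj
      rw [Finset.mem_Icc] at hj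
      have h1 := hjs' j (by omega) hj.2
      have h2 : ¬ thr M R (q - j) ≤ (Iq.filter (fun w' => near j w w')).card :=
        fun h => h1 ⟨w, hwq, h⟩
      have h3 := thr_mono M R hM (s := q - j) (t := q - js - 1) (by omega)
      omega
    · rw [smul_eq_mul, Nat.card_Icc]
      exact Nat.mul_le_mul_right _ (by omega)
  obtain ⟨J, hJ1, hJ2, hJ3⟩ := exists_independent conf hcsymm ((R + 1) * thr M R (q - js - 1)) M I'
    (fun w _ => hcrefl w) hdeg (by
      have h1 : q - js = q - js - 1 + 1 := by omega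
      rw [h1, thr_succ] at hI'card
      calc M * ((R + 1) * thr M R (q - js - 1)) = M * (R + 1) * thr M R (q - js - 1) := by ring
        _ ≤ I'.card := hI'card) (Nat.mul_pos (by omega) (thr_pos M R _ hM))
  have hJq : ∀ w ∈ J, w ∈ Iq := fun w hw => (Finset.mem_filter.1 (hJ1 hw)).1
  have hJn : ∀ w ∈ J, near js i0 w := fun w hw => (Finset.mem_filter.1 (hJ1 hw)).2
  -- the chains
  let Q : V → ℕ → V := fun w j => if j ≤ js then P i0 j else P w j
  have hQ1 : ∀ w j, j ≤ js → Q w j = P i0 j := fun w j h => if_pos h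
  have hQ2 : ∀ w j, js < j → Q w j = P w j := fun w j h => if_neg (by omega)
  have hQu : ∀ w ∈ J, ∀ j, j ≤ q → G.dist u (Q w j) = j * k := by
    intro w hw j hj
    rcases Nat.lt_or_ge js j with h | h
    · rw [hQ2 w j h]
      exact hPu w (hJq w hw) j hj
    · rw [hQ1 w j h]
      exact hPu i0 hi0 j hj
  let F : Set V := {x | ∃ w ∈ J, ∃ j, j ≤ q ∧ x = Q w j}
  have hlev : ∀ w ∈ J, ∀ w' ∈ J, ∀ i j, i < j → j ≤ q → k ≤ G.dist (Q w i) (Q w' j) := by
    intro w hw w' hw' i j hij hjq
    have h1 := hQu w hw i (by omega)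
    have h2 := hQu w' hw' j hjq
    have h3 := hG.dist_triangle (u := u) (v := Q w i) (w := Q w' j)
    have h4 : (i + 1) * k ≤ j * k := Nat.mul_le_mul_right k hij
    have h5 : (i + 1) * k = i * k + k := by ring
    omega
  have hF : Separated G k F := by
    rintro x ⟨w, hw, i, hi, rfl⟩ y ⟨w', hw', j, hj, rfl⟩ hxy
    rcases lt_trichotomy i j with hij | hij | hij
    · exact hlev w hw w' hw' i j hij hj
    · subst hij
      rcases Nat.lt_or_ge js i with h | h
      · rw [hQ2 w i h, hQ2 w' i h]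
        have hww' : w ≠ w' := fun e => hxy (by rw [e])
        have h1 := hJ3 w hw w' hw' hww'
        by_contra hcon
        push Not at hcon
        exact h1 ⟨i, h, hi, hcon⟩
      · exact absurd (by rw [hQ1 w i h, hQ1 w' i h]) hxy
    · rw [SimpleGraph.dist_comm]
      exact hlev w' hw' w hw j i hij hi
  obtain ⟨N, hFN, hN⟩ := exists_net hF
  obtain ⟨w0, hw0⟩ : J.Nonempty := by rw [← Finset.card_pos]; omega
  have hQ0 : ∀ w, Q w 0 = u := fun w => by rw [hQ1 w 0 (Nat.zero_le _), hP0]
  have hmem : ∀ w ∈ J, ∀ j, j ≤ q → Q w j ∈ N := fun w hw j hj => hFN ⟨w, hw, j, hj, rfl⟩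
  have huN : u ∈ N := by
    have := hmem w0 hw0 0 (Nat.zero_le _)
    rwa [hQ0] at this
  have hstep : ∀ w ∈ J, ∀ j, j < q → 0 < G.dist (Q w j) (Q w (j + 1)) ∧
      G.dist (Q w j) (Q w (j + 1)) ≤ 2 * k := by
    intro w hw j hj
    refine ⟨lt_of_lt_of_le (by omega) (hlev w hw w hw j (j + 1) (by omega) hj), ?_⟩
    rcases lt_trichotomy js j with h | h | h
    · rw [hQ2 w j h, hQ2 w (j + 1) (by omega), hPd w (hJq w hw) j (j + 1) (by omega) hj]
      have : j + 1 - j = 1 := by omega
      rw [this]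
      omega
    · subst h
      rw [hQ1 w js le_rfl, hQ2 w (js + 1) (by omega)]
      have h1 : G.dist (P i0 js) (P w js) < k := hJn w hw
      have h2 := hPd w (hJq w hw) js (js + 1) (by omega) hj
      have h3 : js + 1 - js = 1 := by omega
      rw [h3, one_mul] at h2
      have h4 := hG.dist_triangle (u := P i0 js) (v := P w js) (w := P w (js + 1))
      omega
    · rw [hQ1 w j (by omega), hQ1 w (j + 1) (by omega), hPd i0 hi0 j (j + 1) (by omega) hj]
      have : j + 1 - j = 1 := by omega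
      rw [this]
      omega
  have hNc := netGraph_connected hG hk hN
  refine ⟨N, hN, ⟨u, huN⟩, J, fun w => if hw : w ∈ J then ⟨Q w q, hmem w hw q le_rfl⟩ else ⟨u, huN⟩,
    hJ2, ?_, ?_⟩
  · intro w hw
    simp only [dif_pos hw]
    have key : ∀ j (hj : j ≤ q), (netGraph G k N).dist ⟨u, huN⟩ ⟨Q w j, hmem w hw j hj⟩ ≤ j := by
      intro j
      induction j with
      | zero =>
        intro hj
        have : (⟨Q w 0, hmem w hw 0 hj⟩ : N) = ⟨u, huN⟩ := Subtype.ext (hQ0 w)
        rw [this, SimpleGraph.dist_self]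
      | succ j ih =>
        intro hj
        have h1 := ih (by omega)
        have h2 : (netGraph G k N).Adj ⟨Q w j, hmem w hw j (by omega)⟩
            ⟨Q w (j + 1), hmem w hw (j + 1) hj⟩ := hstep w hw j (by omega)
        have h3 := SimpleGraph.dist_eq_one_iff_adj.mpr h2
        have h4 := hNc.dist_triangle (u := ⟨u, huN⟩) (v := ⟨Q w j, hmem w hw j (by omega)⟩)
          (w := ⟨Q w (j + 1), hmem w hw (j + 1) hj⟩)
        omega
    exact (key q le_rfl).trans (by omega)
  · intro w hw w' hw' hww'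
    simp only [dif_pos hw, dif_pos hw']
    rw [hQ2 w q hjsq, hQ2 w' q hjsq]
    have h3 := hPw w (hJq w hw)
    have h4 := hPw w' (hJq w' hw')
    have h5 := hsep w (hIq1 w (hJq w hw)) w' (hIq1 w' (hJq w' hw')) hww'
    have h6 := hG.dist_triangle (u := w) (v := P w q) (w := w')
    have h7 := hG.dist_triangle (u := P w q) (v := P w' q) (w := w')
    rw [SimpleGraph.dist_comm (u := w) (v := P w q)] at h6
    omega

end Pool.Agent.W531.SI
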