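import Mathlib

/-!
# Net graphs and scale invariance
-/

set_option autoImplicit false

open Filter Topology

namespace Pool.Agent.W531.SI

variable {V W : Type*}

/-- `G` is vertex transitive: its automorphism group acts transitively on the vertices. -/
def VertexTransitive (G : SimpleGraph V) : Prop :=
  ∀ u v : V, ∃ φ : G ≃g G, φ u = v

/-- `G` is locally finite: every vertex has finitely many neighbours. -/
def LocFinite (G : SimpleGraph V) : Prop := ∀ v : V, (G.neighborSet v).Finite

/-- Any two distinct vertices of `N` are at distance at least `k`. -/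
def Separated (G : SimpleGraph V) (k : ℕ) (N : Set V) : Prop :=
  ∀ u ∈ N, ∀ v ∈ N, u ≠ v → k ≤ G.dist u v

/-- A `k`-net: a `k`-separated set of vertices which is maximal under inclusion. -/
def IsNet (G : SimpleGraph V) (k : ℕ) (N : Set V) : Prop :=
  Maximal (Separated G k) N

/-- The `k`-net graph on `N`: `u ∼ v` if and only if `0 < d(u,v) ≤ 2k`. -/
def netGraph (G : SimpleGraph V) (k : ℕ) (N : Set V) : SimpleGraph N where
  Adj u v := 0 < G.dist (u : V) (v : V) ∧ G.dist (u : V) (v : V) ≤ 2 * k
  symm := ⟨fun u v h => by rwa [SimpleGraph.dist_comm]⟩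
  loopless := ⟨fun u h => by simp at h⟩

/-- `f` is a `C`-rough isometry from the vertex set of `G` to the vertex set of `H`, both with the
graph distance. -/
def IsRoughIsometry (G : SimpleGraph V) (H : SimpleGraph W) (C : ℝ) (f : V → W) : Prop :=
  (∀ x y : V, C⁻¹ * (H.dist (f x) (f y) : ℝ) - C ≤ (G.dist x y : ℝ) ∧
    (G.dist x y : ℝ) ≤ C * (H.dist (f x) (f y) : ℝ) + C) ∧
  ∀ y : W, ∃ x : V, (H.dist (f x) y : ℝ) < C

/-- The infimum of all `C > 0` for which there is a `C`-rough isometry from `G` to `H` (it is `∞`
if there is none). -/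
noncomputable def roughConst (G : SimpleGraph V) (H : SimpleGraph W) : ENNReal :=
  sInf {c : ENNReal | ∃ C : ℝ, 0 < C ∧ c = ENNReal.ofReal C ∧ ∃ f : V → W, IsRoughIsometry G H C f}

/-- `G` is sub scale invariant: for every choice of `k`-nets `N k`, one for each `k ≥ 1`, the
constants `C_k` of the net graphs tend to `1`. -/
def SubScaleInvariant (G : SimpleGraph V) : Prop :=
  ∀ N : ℕ → Set V, (∀ k, 1 ≤ k → IsNet G k (N k)) →
    Tendsto (fun k => roughConst G (netGraph G k (N k))) atTop (𝓝 1)

/-! ### Basic facts -/

/-- A net is coarsely dense. -/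
theorem IsNet.exists_near {G : SimpleGraph V} {k : ℕ} {N : Set V} (hN : IsNet G k N) (x : V)
    (hk : 1 ≤ k) : ∃ y ∈ N, G.dist x y < k := by
  by_contra hcon
  push Not at hcon
  have hx : x ∉ N := fun h => by
    have := hcon x h
    simp at this
    omega
  have hsep : Separated G k (insert x N) := by
    intro u hu v hv huv
    rcases hu with rfl | hu
    · rcases hv with rfl | hv
      · exact absurd rfl huv
      · exact hcon v hv
    · rcases hv with rfl | hv
      · rw [SimpleGraph.dist_comm]
        exact hcon u hu
      · exact hN.1 u hu v hv huv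
  have h := hN.2 hsep (Set.subset_insert x N)
  exact hx (h (Set.mem_insert x N))

/-- In a net graph distances are at least `d / 2k`, in terms of walks. -/
theorem dist_le_walk {G : SimpleGraph V} (hG : G.Connected) {k : ℕ} {N : Set V} {u v : N}
    (p : (netGraph G k N).Walk u v) : G.dist (u : V) (v : V) ≤ 2 * k * p.length := by
  induction p with
  | nil => simp
  | @cons a b c h p ih =>
    rw [SimpleGraph.Walk.length_cons]
    have h1 := hG.dist_triangle (u := (a : V)) (v := (b : V)) (w := (c : V))
    have h2 := h.2
    nlinarith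

/-- Net graphs of connected graphs are connected. -/
theorem netGraph_connected {G : SimpleGraph V} (hG : G.Connected) {k : ℕ} (hk : 1 ≤ k)
    {N : Set V} (hN : IsNet G k N) : (netGraph G k N).Connected := by
  have hne : Nonempty N := by
    obtain ⟨x⟩ := hG.nonempty
    obtain ⟨y, hy, _⟩ := hN.exists_near x hk
    exact ⟨⟨y, hy⟩⟩
  refine { preconnected := ?_, nonempty := hne }
  -- reachability along a walk of `G`
  have key : ∀ (x y : V) (p : G.Walk x y) (u v : N), G.dist x u < k → G.dist y v < k →
      (netGraph G k N).Reachable u v := by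
    intro x y p
    induction p with
    | nil =>
      rename_i x
      intro u v hu hv
      by_cases huv : u = v
      · subst huv; exact SimpleGraph.Reachable.refl _
      · apply SimpleGraph.Adj.reachable
        have h1 := hG.dist_triangle (u := (u : V)) (v := x) (w := (v : V))
        rw [SimpleGraph.dist_comm (u := (u : V)) (v := x)] at h1
        refine ⟨?_, by omega⟩
        exact hG.pos_dist_of_ne (fun h => huv (Subtype.ext h))
    | @cons a b c h p ih =>
      intro u v hu hv
      obtain ⟨w, hw, hw'⟩ := hN.exists_near b hk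
      refine SimpleGraph.Reachable.trans ?_ (ih ⟨w, hw⟩ v hw' hv)
      by_cases huw : u = ⟨w, hw⟩
      · subst huw; exact SimpleGraph.Reachable.refl _
      · apply SimpleGraph.Adj.reachable
        have h1 := hG.dist_triangle (u := (u : V)) (v := a) (w := w)
        have h2 := hG.dist_triangle (u := a) (v := b) (w := w)
        have h3 : G.dist a b = 1 := SimpleGraph.dist_eq_one_iff_adj.mpr h
        rw [SimpleGraph.dist_comm (u := (u : V)) (v := a)] at h1
        refine ⟨?_, by show G.dist (u : V) w ≤ 2 * k; omega⟩
        exact hG.pos_dist_of_ne (fun h => huw (Subtype.ext h))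
  intro u v
  obtain ⟨p⟩ := hG.preconnected (u : V) (v : V)
  exact key _ _ p u v (by simp; omega) (by simp; omega)

end Pool.Agent.W531.SI
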