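import Pool.Agent.W531.SI.Defs

/-!
# A vertex transitive sub scale invariant graph has volume doubling
-/

set_option autoImplicit false

open Filter Topology

namespace Pool.Agent.W531.SI

variable {V : Type*}

/-- The ball of radius `r` about `v`. -/
def ball (G : SimpleGraph V) (v : V) (r : ℝ) : Set V := {w | (G.dist v w : ℝ) ≤ r}

/-- Volume doubling: for some `C > 0`, `|B(v, 2r)| ≤ C |B(v, r)|` for all vertices `v` and all
`r > 0`. -/
def VolumeDoubling (G : SimpleGraph V) : Prop :=
  ∃ C : ℝ, 0 < C ∧ ∀ (v : V) (r : ℝ), 0 < r →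
    ((ball G v (2 * r)).ncard : ℝ) ≤ C * ((ball G v r).ncard : ℝ)

/-- Balls with a natural number as radius. -/
def nball (G : SimpleGraph V) (v : V) (n : ℕ) : Set V := {w | G.dist v w ≤ n}

theorem ball_eq_nball (G : SimpleGraph V) (v : V) (r : ℝ) (hr : 0 ≤ r) :
    ball G v r = nball G v ⌊r⌋₊ := by
  ext w
  show (G.dist v w : ℝ) ≤ r ↔ G.dist v w ≤ ⌊r⌋₊
  rw [Nat.le_floor_iff hr]

theorem nball_finite {G : SimpleGraph V} (hG : G.Connected) (hf : LocFinite G) (v : V) (n : ℕ) :
    (nball G v n).Finite := by
  induction n with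
  | zero =>
    apply (Set.finite_singleton v).subset
    intro w hw
    have h1 : G.dist v w = 0 := Nat.le_zero.1 hw
    exact ((hG.dist_eq_zero_iff).1 h1).symm
  | succ n ih =>
    apply (ih.union (ih.biUnion (t := fun w => G.neighborSet w) (fun w _ => hf w))).subset
    intro w hw
    have hw' : G.dist v w ≤ n + 1 := hw
    by_cases h : G.dist v w ≤ n
    · left; exact h
    · right
      obtain ⟨p, hp⟩ := hG.exists_walk_length_eq_dist v w
      have hlen : p.length = n + 1 := by omega
      have hnn : ¬ p.Nil := by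
        intro hn
        rw [← SimpleGraph.Walk.length_eq_zero_iff] at hn
        omega
      rw [Set.mem_iUnion₂]
      refine ⟨p.penultimate, ?_, ?_⟩
      · show G.dist v p.penultimate ≤ n
        have h1 := SimpleGraph.dist_le p.dropLast
        rw [SimpleGraph.Walk.length_dropLast, hlen] at h1
        simpa using h1
      · exact p.adj_penultimate hnn

theorem dist_map_le {G : SimpleGraph V} (hG : G.Connected) (φ : G ≃g G) (u v : V) :
    G.dist (φ u) (φ v) ≤ G.dist u v := by
  obtain ⟨p, hp⟩ := hG.exists_walk_length_eq_dist u v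
  rw [← hp]
  have h := SimpleGraph.dist_le (p.map φ.toHom)
  rw [SimpleGraph.Walk.length_map] at h
  exact h

theorem dist_map {G : SimpleGraph V} (hG : G.Connected) (φ : G ≃g G) (u v : V) :
    G.dist (φ u) (φ v) = G.dist u v := by
  apply le_antisymm (dist_map_le hG φ u v)
  have h := dist_map_le hG φ.symm (φ u) (φ v)
  simpa using h

theorem nball_ncard_eq {G : SimpleGraph V} (hG : G.Connected) (ht : VertexTransitive G) (u v : V)
    (n : ℕ) : (nball G u n).ncard = (nball G v n).ncard := by
  obtain ⟨φ, hφ⟩ := ht u v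
  have h : nball G v n = φ '' nball G u n := by
    ext w
    constructor
    · intro hw
      refine ⟨φ.symm w, ?_, by simp⟩
      have h1 := dist_map hG φ u (φ.symm w)
      rw [hφ] at h1
      have h2 : G.dist v w ≤ n := hw
      have h3 : φ (φ.symm w) = w := by simp
      rw [h3] at h1
      show G.dist u (φ.symm w) ≤ n
      omega
    · rintro ⟨x, hx, rfl⟩
      have h1 := dist_map hG φ u x
      rw [hφ] at h1
      have h2 : G.dist u x ≤ n := hx
      show G.dist v (φ x) ≤ n
      omega
  rw [h, Set.ncard_image_of_injective _ φ.injective]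

/-- Every separated set is contained in a net. -/
theorem exists_net {G : SimpleGraph V} {k : ℕ} {F : Set V} (hF : Separated G k F) :
    ∃ N, F ⊆ N ∧ IsNet G k N := by
  have hch : ∀ c ⊆ {S : Set V | Separated G k S}, IsChain (· ⊆ ·) c → c.Nonempty →
      ∃ ub ∈ {S : Set V | Separated G k S}, ∀ s ∈ c, s ⊆ ub := by
    intro c hc hchain hne
    refine ⟨⋃₀ c, ?_, fun s hs => Set.subset_sUnion_of_mem hs⟩
    rintro u ⟨s, hs, hus⟩ v ⟨t, ht, hvt⟩ huv
    rcases hchain.total hs ht with h | h
    · exact hc ht u (h hus) v hvt huv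
    · exact hc hs u hus v (h hvt) huv
  obtain ⟨N, hFN, hN⟩ := zorn_subset_nonempty {S : Set V | Separated G k S} hch F hF
  exact ⟨N, hFN, hN⟩

/-- Geodesics. -/
theorem exists_geodesic {G : SimpleGraph V} (hG : G.Connected) (u w : V) :
    ∃ γ : ℕ → V, γ 0 = u ∧ γ (G.dist u w) = w ∧
      ∀ a b, a ≤ b → b ≤ G.dist u w → G.dist (γ a) (γ b) = b - a := by
  obtain ⟨p, hp⟩ := hG.exists_walk_length_eq_dist u w
  have hstep : ∀ i, i < p.length → G.dist (p.getVert i) (p.getVert (i + 1)) = 1 := fun i hi =>
    SimpleGraph.dist_eq_one_iff_adj.mpr (p.adj_getVert_succ hi)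
  have hle : ∀ a n, a + n ≤ p.length → G.dist (p.getVert a) (p.getVert (a + n)) ≤ n := by
    intro a n
    induction n with
    | zero => intro _; simp
    | succ n ih =>
      intro h
      have h1 := ih (by omega)
      have h2 := hstep (a + n) (by omega)
      have h3 := hG.dist_triangle (u := p.getVert a) (v := p.getVert (a + n))
        (w := p.getVert (a + n + 1))
      have h4 : a + (n + 1) = a + n + 1 := by ring
      rw [h4]
      omega
  refine ⟨p.getVert, p.getVert_zero, by rw [← hp]; exact p.getVert_length, ?_⟩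
  intro a b hab hb
  rw [← hp] at hb
  have h1 := hle a (b - a) (by omega)
  have h2 := hle 0 a (by omega)
  have h3 := hle b (p.length - b) (by omega)
  have e1 : a + (b - a) = b := by omega
  have e2 : b + (p.length - b) = p.length := by omega
  rw [e1] at h1
  rw [e2, p.getVert_length] at h3
  rw [zero_add, p.getVert_zero] at h2
  have h4 := hG.dist_triangle (u := u) (v := p.getVert a) (w := w)
  have h5 := hG.dist_triangle (u := p.getVert a) (v := p.getVert b) (w := w)
  omega

/-- A finite symmetric relation with bounded clusters has large independent sets. -/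
theorem exists_independent {ι : Type*} [DecidableEq ι] (near : ι → ι → Prop)
    (hsymm : ∀ i j, near i j → near j i) (D : ℕ) (M : ℕ) (I : Finset ι)
    (hrefl : ∀ i ∈ I, near i i)
    (hD : ∀ i ∈ I, {j ∈ (I : Set ι) | near i j}.ncard ≤ D) (hI : M * D ≤ I.card) (hD0 : 0 < D) :
    ∃ J ⊆ I, J.card = M ∧ ∀ i ∈ J, ∀ j ∈ J, i ≠ j → ¬ near i j := by
  classical
  induction M generalizing I with
  | zero => exact ⟨∅, Finset.empty_subset _, rfl, by simp⟩
  | succ M ih =>
    have hne : I.Nonempty := by
      rw [← Finset.card_pos]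
      nlinarith
    obtain ⟨i, hi⟩ := hne
    let I' := I.filter (fun j => ¬ near i j)
    have hcl : (I.filter (fun j => near i j)).card ≤ D := by
      have h1 := hD i hi
      have h2 : {j ∈ (I : Set ι) | near i j} = ((I.filter (fun j => near i j) : Finset ι) : Set ι) := by
        ext j; simp
      rwa [h2, Set.ncard_coe_finset] at h1
    have hcard : (I.filter (fun j => near i j)).card + I'.card = I.card :=
      Finset.card_filter_add_card_filter_not _
    have hI' : M * D ≤ I'.card := by
      have : (M + 1) * D = M * D + D := by ring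
      omega
    obtain ⟨J, hJ1, hJ2, hJ3⟩ := ih I' (fun j hj => hrefl j (Finset.mem_filter.1 hj).1)
      (fun j hj => by
        refine le_trans (Set.ncard_le_ncard ?_ ?_) (hD j (Finset.mem_filter.1 hj).1)
        · rintro x ⟨hx1, hx2⟩
          exact ⟨(Finset.mem_filter.1 hx1).1, hx2⟩
        · exact (I.finite_toSet).subset (fun x hx => hx.1)) hI'
    have hiJ : i ∉ J := by
      intro h
      exact (Finset.mem_filter.1 (hJ1 h)).2 (hrefl i hi)
    refine ⟨insert i J, ?_, ?_, ?_⟩
    · intro x hx
      rcases Finset.mem_insert.1 hx with rfl | hx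
      · exact hi
      · exact (Finset.mem_filter.1 (hJ1 hx)).1
    · rw [Finset.card_insert_of_notMem hiJ, hJ2]
    · intro a ha b hb hab
      rcases Finset.mem_insert.1 ha with ha' | ha'
      · rcases Finset.mem_insert.1 hb with hb' | hb'
        · exact absurd (ha'.trans hb'.symm) hab
        · rw [ha']
          exact (Finset.mem_filter.1 (hJ1 hb')).2
      · rcases Finset.mem_insert.1 hb with hb' | hb'
        · rw [hb']
          intro h
          exact (Finset.mem_filter.1 (hJ1 ha')).2 (hsymm _ _ h)
        · exact hJ3 a ha' b hb' hab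

end Pool.Agent.W531.SI
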