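import Pool.Agent.W531.SI.Defs

/-!
# The two-way infinite path is sub scale invariant
-/

set_option autoImplicit false

open Filter Topology

namespace Pool.Agent.W531.SI

/-- The two-way infinite path: the vertices are the integers, consecutive integers are adjacent. -/
def line : SimpleGraph ℤ where
  Adj a b := b = a + 1 ∨ a = b + 1
  symm := ⟨fun a b h => h.symm⟩
  loopless := ⟨fun a h => by omega⟩

theorem line_walk_bound {a b : ℤ} (p : line.Walk a b) : |a - b| ≤ p.length := by
  induction p with
  | nil => simp
  | @cons u v w h p ih =>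
    rw [SimpleGraph.Walk.length_cons]
    push_cast
    rcases h with h | h <;> rw [abs_le] at * <;> omega

theorem line_walk_exists (a : ℤ) (n : ℕ) : ∃ p : line.Walk a (a + n), p.length = n := by
  induction n with
  | zero => exact ⟨SimpleGraph.Walk.nil.copy rfl (by simp), by simp⟩
  | succ n ih =>
    obtain ⟨p, hp⟩ := ih
    have h : line.Adj (a + n) (a + (n + 1 : ℕ)) := by
      left; push_cast; ring
    exact ⟨p.concat h, by simp [hp]⟩

theorem line_connected : line.Connected := by
  refine { preconnected := ?_, nonempty := ⟨0⟩ }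
  have h : ∀ a b : ℤ, a ≤ b → line.Reachable a b := by
    intro a b hab
    obtain ⟨n, hn⟩ := Int.eq_ofNat_of_zero_le (sub_nonneg.2 hab)
    obtain ⟨p, _⟩ := line_walk_exists a n
    have : a + n = b := by omega
    rw [this] at p
    exact ⟨p⟩
  intro a b
  rcases le_total a b with hab | hab
  · exact h a b hab
  · exact (h b a hab).symm

theorem line_dist (a b : ℤ) : (line.dist a b : ℤ) = |a - b| := by
  have h : ∀ a b : ℤ, a ≤ b → (line.dist a b : ℤ) = |a - b| := by
    intro a b hab
    apply le_antisymm
    · obtain ⟨n, hn⟩ := Int.eq_ofNat_of_zero_le (sub_nonneg.2 hab)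
      obtain ⟨p, hp⟩ := line_walk_exists a n
      have e : a + n = b := by omega
      subst e
      have := SimpleGraph.dist_le p
      rw [abs_sub_comm]
      have h2 : |a + (n : ℤ) - a| = n := by rw [add_sub_cancel_left]; exact abs_of_nonneg (by omega)
      rw [h2]
      omega
    · obtain ⟨p, hp⟩ := line_connected.exists_walk_length_eq_dist a b
      rw [← hp]
      exact line_walk_bound p
  rcases le_total a b with hab | hab
  · exact h a b hab
  · rw [SimpleGraph.dist_comm, abs_sub_comm]
    exact h b a hab

theorem line_transitive : VertexTransitive line := by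
  intro u v
  refine ⟨{ toEquiv := Equiv.addRight (v - u), map_rel_iff' := ?_ }, ?_⟩
  · intro a b
    simp only [line, Equiv.coe_addRight]
    omega
  · show u + (v - u) = v
    omega

theorem line_locFinite : LocFinite line := by
  intro v
  apply ((Set.finite_singleton (v + 1)).union (Set.finite_singleton (v - 1))).subset
  intro w hw
  rcases hw with h | h
  · left; exact h
  · right; show w = v - 1; omega

section Net

variable {k : ℕ} (hk : 1 ≤ k) {N : Set ℤ} (hN : IsNet line k N)

theorem adj_iff (x y : N) : (netGraph line k N).Adj x y ↔ (x : ℤ) ≠ y ∧ |(x : ℤ) - y| ≤ 2 * k := by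
  have h := line_dist x y
  constructor
  · rintro ⟨h1, h2⟩
    refine ⟨fun e => ?_, by omega⟩
    rw [e] at h1
    simp at h1
  · rintro ⟨h1, h2⟩
    have h3 : 0 < |(x : ℤ) - y| := abs_pos.2 (sub_ne_zero.2 h1)
    exact ⟨by omega, by omega⟩

include hk hN

theorem near (t : ℤ) : ∃ y ∈ N, |t - y| < k := by
  obtain ⟨y, hy, h⟩ := hN.exists_near t hk
  refine ⟨y, hy, ?_⟩
  have := line_dist t y
  omega

/-- The farthest neighbour to the right. -/
theorem exists_right (x : N) : ∃ y : N, (x : ℤ) < y ∧ (y : ℤ) ≤ x + 2 * k ∧
    ∀ z : N, (z : ℤ) ≤ x + 2 * k → z ≤ y := by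
  obtain ⟨y, hy, h⟩ := near hk hN ((x : ℤ) + k)
  rw [abs_lt] at h
  obtain ⟨m, hm1, hm2⟩ := Int.exists_greatest_of_bdd (P := fun z => z ∈ N ∧ z ≤ x + 2 * k)
    ⟨x + 2 * k, fun z hz => hz.2⟩ ⟨y, hy, by omega⟩
  refine ⟨⟨m, hm1.1⟩, ?_, hm1.2, fun z hz => hm2 z ⟨z.2, hz⟩⟩
  have := hm2 y ⟨hy, by omega⟩
  show (x : ℤ) < m
  omega

/-- The farthest neighbour to the left. -/
theorem exists_left (x : N) : ∃ y : N, (y : ℤ) < x ∧ (x : ℤ) - 2 * k ≤ y ∧
    ∀ z : N, (x : ℤ) - 2 * k ≤ z → y ≤ z := by
  obtain ⟨y, hy, h⟩ := near hk hN ((x : ℤ) - k)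
  rw [abs_lt] at h
  obtain ⟨m, hm1, hm2⟩ := Int.exists_least_of_bdd (P := fun z => z ∈ N ∧ (x : ℤ) - 2 * k ≤ z)
    ⟨(x : ℤ) - 2 * k, fun z hz => hz.2⟩ ⟨y, hy, by omega⟩
  refine ⟨⟨m, hm1.1⟩, ?_, hm1.2, fun z hz => hm2 z ⟨z.2, hz⟩⟩
  have := hm2 y ⟨hy, by omega⟩
  show m < (x : ℤ)
  omega

theorem exists_rough (C : ℝ) (hC : 1 < C) : ∃ f : ℤ → N,
    IsRoughIsometry line (netGraph line k N) C f := by
  classical
  choose r hr1 hr2 hr3 using exists_right hk hN
  choose l hl1 hl2 hl3 using exists_left hk hN
  have hrmono : Monotone r := by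
    intro x y hxy
    apply hr3
    have := hr2 x
    have h2 : (x : ℤ) ≤ y := hxy
    omega
  have hlmono : Monotone l := by
    intro x y hxy
    apply hl3
    have := hl2 y
    have h2 : (x : ℤ) ≤ y := hxy
    omega
  have hradj : ∀ x, (netGraph line k N).Adj x (r x) := by
    intro x
    rw [adj_iff]
    have h1 := hr1 x
    have h2 := hr2 x
    refine ⟨by omega, ?_⟩
    rw [abs_le]
    omega
  have hladj : ∀ x, (netGraph line k N).Adj x (l x) := by
    intro x
    rw [adj_iff]
    have h1 := hl1 x
    have h2 := hl2 x
    refine ⟨by omega, ?_⟩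
    rw [abs_le]
    omega
  -- walks and iterates
  have hwr : ∀ (n : ℕ) (x : N), ∃ p : (netGraph line k N).Walk x (r^[n] x), p.length = n := by
    intro n
    induction n with
    | zero => intro x; exact ⟨SimpleGraph.Walk.nil, rfl⟩
    | succ n ih =>
      intro x
      obtain ⟨p, hp⟩ := ih (r x)
      exact ⟨SimpleGraph.Walk.cons (hradj x) p, by simp [hp]⟩
  have hwl : ∀ (n : ℕ) (x : N), ∃ p : (netGraph line k N).Walk x (l^[n] x), p.length = n := by
    intro n
    induction n with
    | zero => intro x; exact ⟨SimpleGraph.Walk.nil, rfl⟩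
    | succ n ih =>
      intro x
      obtain ⟨p, hp⟩ := ih (l x)
      exact ⟨SimpleGraph.Walk.cons (hladj x) p, by simp [hp]⟩
  have hbr : ∀ (x y : N) (p : (netGraph line k N).Walk x y), y ≤ r^[p.length] x := by
    intro x y p
    induction p with
    | nil => exact le_rfl
    | @cons u v w h p ih =>
      rw [SimpleGraph.Walk.length_cons, Function.iterate_succ_apply]
      refine ih.trans (hrmono.iterate _ ?_)
      apply hr3
      rw [adj_iff, abs_le] at h
      omega
  have hbl : ∀ (x y : N) (p : (netGraph line k N).Walk x y), l^[p.length] x ≤ y := by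
    intro x y p
    induction p with
    | nil => exact le_rfl
    | @cons u v w h p ih =>
      rw [SimpleGraph.Walk.length_cons, Function.iterate_succ_apply]
      refine le_trans (hlmono.iterate _ ?_) ih
      apply hl3
      rw [adj_iff, abs_le] at h
      omega
  have hconn := netGraph_connected line_connected hk hN
  have hbr' : ∀ x y : N, y ≤ r^[(netGraph line k N).dist x y] x := by
    intro x y
    obtain ⟨p, hp⟩ := hconn.exists_walk_length_eq_dist x y
    rw [← hp]
    exact hbr x y p
  have hbl' : ∀ x y : N, l^[(netGraph line k N).dist x y] x ≤ y := by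
    intro x y
    obtain ⟨p, hp⟩ := hconn.exists_walk_length_eq_dist x y
    rw [← hp]
    exact hbl x y p
  have hdr : ∀ (n : ℕ) (x : N), (netGraph line k N).dist x (r^[n] x) ≤ n := by
    intro n x
    obtain ⟨p, hp⟩ := hwr n x
    exact (SimpleGraph.dist_le p).trans (by rw [hp])
  have hdl : ∀ (n : ℕ) (x : N), (netGraph line k N).dist x (l^[n] x) ≤ n := by
    intro n x
    obtain ⟨p, hp⟩ := hwl n x
    exact (SimpleGraph.dist_le p).trans (by rw [hp])
  have hrstrict : ∀ (x : N) (m n : ℕ), m < n → r^[m] x < r^[n] x := by
    intro x m n hmn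
    have h : StrictMono (fun n => r^[n] x) := by
      apply strictMono_nat_of_lt_succ
      intro n
      rw [Function.iterate_succ_apply']
      exact hr1 _
    exact h hmn
  have hlstrict : ∀ (x : N) (m n : ℕ), m < n → l^[n] x < l^[m] x := by
    intro x m n hmn
    have h : StrictAnti (fun n => l^[n] x) := by
      apply strictAnti_nat_of_succ_lt
      intro n
      rw [Function.iterate_succ_apply']
      exact hl1 _
    exact h hmn
  -- the distances are exact on each side
  have hdr' : ∀ (n : ℕ) (x : N), (netGraph line k N).dist x (r^[n] x) = n := by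
    intro n x
    apply le_antisymm (hdr n x)
    by_contra hcon
    push Not at hcon
    have h1 := hbr' x (r^[n] x)
    have h2 := hrstrict x _ _ hcon
    exact absurd h2 (not_lt.2 h1)
  have hdl' : ∀ (n : ℕ) (x : N), (netGraph line k N).dist x (l^[n] x) = n := by
    intro n x
    apply le_antisymm (hdl n x)
    by_contra hcon
    push Not at hcon
    have h1 := hbl' x (l^[n] x)
    have h2 := hlstrict x _ _ hcon
    exact absurd h2 (not_lt.2 h1)
  obtain ⟨x0⟩ := hconn.nonempty
  -- the two sides together
  have hmix : ∀ a b : ℕ, (netGraph line k N).dist (l^[a] x0) (r^[b] x0) ≤ a + b ∧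
      a + b ≤ (netGraph line k N).dist (l^[a] x0) (r^[b] x0) + 1 := by
    intro a b
    constructor
    · refine (hconn.dist_triangle (v := x0)).trans ?_
      rw [SimpleGraph.dist_comm, hdl', hdr']
    · by_contra hcon
      push Not at hcon
      set c := (netGraph line k N).dist (l^[a] x0) (r^[b] x0) with hc
      have h1 := hbr' (l^[a] x0) (r^[b] x0)
      rw [← hc] at h1
      rcases Nat.eq_zero_or_pos a with ha | ha
      · subst ha
        have h2 := hrstrict x0 c b (by omega)
        exact absurd h2 (not_lt.2 h1)
      rcases Nat.eq_zero_or_pos b with hb | hb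
      · subst hb
        have h3 : (netGraph line k N).dist (l^[a] x0) x0 = a := by
          rw [SimpleGraph.dist_comm]
          exact hdl' a x0
        have h4 : c = a := h3
        omega
      -- the iterate `r ^ (a - 1)` does not reach `x0`
      have h2 : r^[a - 1] (l^[a] x0) < x0 := by
        by_contra h3
        push Not at h3
        -- then the distance would be at most `a - 1`
        have h4 : ∀ (n : ℕ) (x y : N), x ≤ y → y ≤ r^[n] x →
            ∃ p : (netGraph line k N).Walk x y, p.length ≤ n := by
          intro n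
          induction n with
          | zero =>
            intro x y hxy hyx
            have h5 : x = y := le_antisymm hxy hyx
            subst h5
            exact ⟨SimpleGraph.Walk.nil, by simp⟩
          | succ n ih =>
            intro x y hxy hyx
            by_cases hxy' : x = y
            · subst hxy'
              exact ⟨SimpleGraph.Walk.nil, by simp⟩
            have hlt : x < y := lt_of_le_of_ne hxy hxy'
            by_cases h5 : (y : ℤ) ≤ x + 2 * k
            · have h6 : (netGraph line k N).Adj x y := by
                rw [adj_iff, abs_le]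
                have h7 : (x : ℤ) < y := hlt
                omega
              exact ⟨SimpleGraph.Walk.cons h6 SimpleGraph.Walk.nil, by simp⟩
            · have h6 : r x ≤ y := by
                have h7 := hr2 x
                have h8 : ((r x : N) : ℤ) ≤ y := by omega
                exact h8
              obtain ⟨p, hp⟩ := ih (r x) y h6 (by rwa [Function.iterate_succ_apply] at hyx)
              exact ⟨SimpleGraph.Walk.cons (hradj x) p, by simp; omega⟩
        have h5 : l^[a] x0 ≤ x0 := (hlstrict x0 0 a ha).le
        obtain ⟨p, hp⟩ := h4 (a - 1) (l^[a] x0) x0 h5 h3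
        have h6 := SimpleGraph.dist_le p
        rw [SimpleGraph.dist_comm, hdl'] at h6
        omega
      have h3 : r^[a - 1 + (b - 1)] (l^[a] x0) ≤ r^[b - 1] x0 := by
        rw [add_comm, Function.iterate_add_apply]
        exact hrmono.iterate _ h2.le
      have h4 : r^[b - 1] x0 < r^[b] x0 := hrstrict x0 _ _ (by omega)
      have h5 : r^[c] (l^[a] x0) ≤ r^[a - 1 + (b - 1)] (l^[a] x0) := by
        rcases Nat.lt_or_ge c (a - 1 + (b - 1)) with h | h
        · exact (hrstrict _ _ _ h).le
        · have : c = a - 1 + (b - 1) := by omega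
          rw [this]
      exact absurd (h1.trans (h5.trans h3)) (not_le.2 h4)
  -- the map
  let f : ℤ → N := fun n => if 0 ≤ n then r^[n.toNat] x0 else l^[(-n).toNat] x0
  have hfpos : ∀ n : ℕ, f n = r^[n] x0 := by
    intro n
    simp [f]
  have hfneg : ∀ n : ℕ, f (-(n : ℤ)) = l^[n] x0 := by
    intro n
    rcases Nat.eq_zero_or_pos n with h | h
    · subst h; simp [f]
    · have h1 : ¬ (0 : ℤ) ≤ -(n : ℤ) := by omega
      simp only [f, if_neg h1]
      congr 1
      omega
  have hdist : ∀ x y : ℤ, (netGraph line k N).dist (f x) (f y) ≤ line.dist x y ∧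
      line.dist x y ≤ (netGraph line k N).dist (f x) (f y) + 1 := by
    have hmain : ∀ x y : ℤ, x ≤ y → (netGraph line k N).dist (f x) (f y) ≤ line.dist x y ∧
        line.dist x y ≤ (netGraph line k N).dist (f x) (f y) + 1 := by
      intro x y hxy
      have hxy' := line_dist x y
      rw [abs_of_nonpos (by omega)] at hxy'
      rcases le_total 0 x with hx | hx
      · obtain ⟨a, rfl⟩ := Int.eq_ofNat_of_zero_le hx
        obtain ⟨b, rfl⟩ := Int.eq_ofNat_of_zero_le (hx.trans hxy)
        rw [hfpos, hfpos]
        have h1 : r^[b] x0 = r^[b - a] (r^[a] x0) := by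
          rw [← Function.iterate_add_apply]
          congr 1
          omega
        rw [h1, hdr']
        omega
      · obtain ⟨a, ha⟩ := Int.eq_ofNat_of_zero_le (neg_nonneg.2 hx)
        have hxa : x = -(a : ℤ) := by omega
        subst hxa
        rcases le_total 0 y with hy | hy
        · obtain ⟨b, rfl⟩ := Int.eq_ofNat_of_zero_le hy
          rw [hfpos, hfneg]
          have := hmix a b
          omega
        · obtain ⟨b, hb⟩ := Int.eq_ofNat_of_zero_le (neg_nonneg.2 hy)
          have hyb : y = -(b : ℤ) := by omega
          subst hyb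
          rw [hfneg, hfneg, SimpleGraph.dist_comm]
          have h1 : l^[a] x0 = l^[a - b] (l^[b] x0) := by
            rw [← Function.iterate_add_apply]
            congr 1
            omega
          rw [h1, hdl']
          omega
    intro x y
    rcases le_total x y with h | h
    · exact hmain x y h
    · rw [SimpleGraph.dist_comm (u := x), SimpleGraph.dist_comm (u := f x)]
      exact hmain y x h
  refine ⟨f, ?_, ?_⟩
  · intro x y
    obtain ⟨h1, h2⟩ := hdist x y
    have h1' : ((netGraph line k N).dist (f x) (f y) : ℝ) ≤ line.dist x y := by exact_mod_cast h1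
    have h2' : (line.dist x y : ℝ) ≤ (netGraph line k N).dist (f x) (f y) + 1 := by exact_mod_cast h2
    have h3 : (0 : ℝ) ≤ (netGraph line k N).dist (f x) (f y) := by positivity
    constructor
    · have h4 : C⁻¹ ≤ 1 := inv_le_one_of_one_le₀ hC.le
      nlinarith
    · nlinarith
  · intro y
    have hunb : ∀ (n : ℕ) (x : N), (x : ℤ) + n ≤ r^[n] x := by
      intro n
      induction n with
      | zero => intro x; simp
      | succ n ih =>
        intro x
        rw [Function.iterate_succ_apply']
        have h1 := hr1 (r^[n] x)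
        have h2 := ih x
        push_cast
        omega
    have hunb' : ∀ (n : ℕ) (x : N), ((l^[n] x : N) : ℤ) ≤ x - n := by
      intro n
      induction n with
      | zero => intro x; simp
      | succ n ih =>
        intro x
        rw [Function.iterate_succ_apply']
        have h1 := hl1 (l^[n] x)
        have h2 := ih x
        push_cast
        omega
    have hone : ∀ u v : N, (netGraph line k N).Adj u v → ((netGraph line k N).dist u v : ℝ) < C := by
      intro u v h
      rw [SimpleGraph.dist_eq_one_iff_adj.mpr h]
      exact_mod_cast hC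
    rcases le_total x0 y with hy | hy
    · have hex : ∃ n : ℕ, y ≤ r^[n] x0 := by
        refine ⟨((y : ℤ) - x0).toNat, ?_⟩
        have h1 := hunb ((y : ℤ) - x0).toNat x0
        have h2 : (x0 : ℤ) ≤ y := hy
        show (y : ℤ) ≤ _
        omega
      have hn := Nat.find_spec hex
      rcases Nat.eq_zero_or_pos (Nat.find hex) with h0 | h0
      · rw [h0] at hn
        have : y = x0 := le_antisymm hn hy
        refine ⟨0, ?_⟩
        have h1 : f 0 = x0 := by
          have := hfpos 0
          simpa using this
        rw [h1, this, SimpleGraph.dist_self]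
        have : (0 : ℝ) < C := by linarith
        exact_mod_cast this
      · have hm := Nat.find_min hex (m := Nat.find hex - 1) (by omega)
        push Not at hm
        refine ⟨((Nat.find hex - 1 : ℕ) : ℤ), ?_⟩
        rw [hfpos]
        apply hone
        rw [adj_iff, abs_le]
        have h1 : y ≤ r (r^[Nat.find hex - 1] x0) := by
          rw [← Function.iterate_succ_apply' (f := r)]
          have : (Nat.find hex - 1).succ = Nat.find hex := by omega
          rw [this]
          exact hn
        have h2 := hr2 (r^[Nat.find hex - 1] x0)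
        have h3 : (y : ℤ) ≤ r (r^[Nat.find hex - 1] x0) := h1
        have h4 : ((r^[Nat.find hex - 1] x0 : N) : ℤ) < y := hm
        omega
    · have hex : ∃ n : ℕ, l^[n] x0 ≤ y := by
        refine ⟨((x0 : ℤ) - y).toNat, ?_⟩
        have h1 := hunb' ((x0 : ℤ) - y).toNat x0
        have h2 : (y : ℤ) ≤ x0 := hy
        show _ ≤ (y : ℤ)
        omega
      have hn := Nat.find_spec hex
      rcases Nat.eq_zero_or_pos (Nat.find hex) with h0 | h0
      · rw [h0] at hn
        have : y = x0 := le_antisymm hy hn
        refine ⟨0, ?_⟩
        have h1 : f 0 = x0 := by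
          have := hfpos 0
          simpa using this
        rw [h1, this, SimpleGraph.dist_self]
        have : (0 : ℝ) < C := by linarith
        exact_mod_cast this
      · have hm := Nat.find_min hex (m := Nat.find hex - 1) (by omega)
        push Not at hm
        refine ⟨-((Nat.find hex - 1 : ℕ) : ℤ), ?_⟩
        rw [hfneg]
        apply hone
        rw [adj_iff, abs_le]
        have h1 : l (l^[Nat.find hex - 1] x0) ≤ y := by
          rw [← Function.iterate_succ_apply' (f := l)]
          have : (Nat.find hex - 1).succ = Nat.find hex := by omega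
          rw [this]
          exact hn
        have h2 := hl2 (l^[Nat.find hex - 1] x0)
        have h3 : ((l (l^[Nat.find hex - 1] x0) : N) : ℤ) ≤ y := h1
        have h4 : (y : ℤ) < l^[Nat.find hex - 1] x0 := hm
        omega

end Net

/-- A rough isometry from the line has constant at least `1`. -/
theorem one_le_of_rough {W : Type*} (H : SimpleGraph W) (C : ℝ) (hC : 0 < C) (f : ℤ → W)
    (hf : IsRoughIsometry line H C f) : 1 ≤ C := by
  by_contra hcon
  push Not at hcon
  obtain ⟨n, hn⟩ := exists_nat_gt ((C + C ^ 3) / (1 - C ^ 2))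
  obtain ⟨h1, h2⟩ := hf.1 0 n
  have h3 : (line.dist 0 (n : ℤ) : ℝ) = n := by
    have h4 := line_dist 0 n
    rw [zero_sub, abs_neg, Nat.abs_cast] at h4
    exact_mod_cast h4
  rw [h3] at h1 h2
  have hpos : 0 < 1 - C ^ 2 := by nlinarith
  rw [div_lt_iff₀ hpos] at hn
  set d : ℝ := (H.dist (f 0) (f n) : ℝ)
  have h5 : d ≤ C * (n + C) := by
    have h6 : C * (C⁻¹ * d) = d := by field_simp
    nlinarith
  nlinarith

/-- All the constants `C_k` of the line are equal to `1`. -/
theorem roughConst_line {k : ℕ} (hk : 1 ≤ k) {N : Set ℤ} (hN : IsNet line k N) :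
    roughConst line (netGraph line k N) = 1 := by
  apply le_antisymm
  · apply le_of_forall_gt_imp_ge_of_dense
    intro c hc
    rcases eq_or_ne c ⊤ with rfl | hct
    · exact le_top
    have h1 : 1 < c.toReal := by
      rw [← ENNReal.toReal_one]
      exact (ENNReal.toReal_lt_toReal ENNReal.one_ne_top hct).2 hc
    obtain ⟨f, hf⟩ := exists_rough hk hN c.toReal h1
    exact sInf_le ⟨c.toReal, by linarith, (ENNReal.ofReal_toReal hct).symm, f, hf⟩
  · apply le_sInf
    rintro c ⟨C, hC, rfl, f, hf⟩
    have h1 := one_le_of_rough _ C hC f hf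
    rw [← ENNReal.ofReal_one]
    exact ENNReal.ofReal_le_ofReal h1

theorem line_subScaleInvariant : SubScaleInvariant line := by
  intro N hN
  apply Tendsto.congr' (f₁ := fun _ => (1 : ENNReal)) _ tendsto_const_nhds
  filter_upwards [eventually_ge_atTop 1] with k hk
  exact (roughConst_line hk (hN k hk)).symm

end Pool.Agent.W531.SI
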