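import Pool.Agent.W531.SI.Chain

/-!
# Vertex transitive sub scale invariant graphs have volume doubling
-/

set_option autoImplicit false

open Filter Topology

namespace Pool.Agent.W531.SI

variable {V : Type*}

theorem card_le_of_rough {G : SimpleGraph V} (hG : G.Connected) (hf : LocFinite G)
    (ht : VertexTransitive G) {k : ℕ} {N : Set V}
    (hNc : (netGraph G k N).Connected) (C : ℝ) (hC2 : C < 2) (f : V → N)
    (hrough : IsRoughIsometry G (netGraph G k N) C f) (R : ℕ) (a : N) (J : Finset V) (y : V → N)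
    (h1 : ∀ w ∈ J, (netGraph G k N).dist a (y w) ≤ R)
    (h2 : ∀ w ∈ J, ∀ w' ∈ J, w ≠ w' → 4 * k < G.dist (y w : V) (y w')) (u : V) :
    J.card ≤ (nball G u (2 * R + 6)).ncard := by
  obtain ⟨hr1, hr2⟩ := hrough
  have hone : ∀ z : N, ∃ x : V, (netGraph G k N).dist (f x) z ≤ 1 := by
    intro z
    obtain ⟨x, hx⟩ := hr2 z
    refine ⟨x, ?_⟩
    have : ((netGraph G k N).dist (f x) z : ℝ) < 2 := hx.trans hC2
    have h3 : (netGraph G k N).dist (f x) z < 2 := by exact_mod_cast this
    omega
  obtain ⟨x0, hx0⟩ := hone a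
  choose x hx using hone
  rw [nball_ncard_eq hG ht u x0]
  have hle : ∀ w ∈ J, x (y w) ∈ nball G x0 (2 * R + 6) := by
    intro w hw
    have h3 := hx (y w)
    have h4 := h1 w hw
    have h5 := hNc.dist_triangle (u := f x0) (v := a) (w := f (x (y w)))
    have h6 := hNc.dist_triangle (u := a) (v := y w) (w := f (x (y w)))
    rw [SimpleGraph.dist_comm (u := y w)] at h6
    have h7 : (netGraph G k N).dist (f x0) (f (x (y w))) ≤ R + 2 := by omega
    have h8 := (hr1 x0 (x (y w))).2
    have h9 : ((netGraph G k N).dist (f x0) (f (x (y w))) : ℝ) ≤ R + 2 := by exact_mod_cast h7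
    have h10 : (G.dist x0 (x (y w)) : ℝ) ≤ 2 * R + 6 := by
      have h11 : (0 : ℝ) ≤ (netGraph G k N).dist (f x0) (f (x (y w))) := by positivity
      nlinarith
    show G.dist x0 (x (y w)) ≤ 2 * R + 6
    exact_mod_cast h10
  have hinj : Set.InjOn (fun w => x (y w)) J := by
    intro w hw w' hw' he
    by_contra hne
    have h3 := hx (y w)
    have h4 := hx (y w')
    have he' : x (y w) = x (y w') := he
    rw [he'] at h3
    have h5 := hNc.dist_triangle (u := y w) (v := f (x (y w'))) (w := y w')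
    rw [SimpleGraph.dist_comm (u := y w) (v := f (x (y w')))] at h5
    obtain ⟨p, hp⟩ := hNc.exists_walk_length_eq_dist (y w) (y w')
    have h6 := dist_le_walk hG p
    have h7 := h2 w hw w' hw' hne
    have h8 : p.length ≤ 2 := by omega
    have h9 : 2 * k * p.length ≤ 2 * k * 2 := Nat.mul_le_mul_left _ h8
    omega
  have := Set.ncard_le_ncard_of_injOn (s := (J : Set V)) (fun w => x (y w)) hle hinj
    (nball_finite hG hf x0 _)
  rwa [Set.ncard_coe_finset] at this

theorem cover_bound {G : SimpleGraph V} (hG : G.Connected) (hf : LocFinite G)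
    (ht : VertexTransitive G) (k R m : ℕ) (hk : 1 ≤ k) (u : V)
    (h : ∀ I : Finset V, (∀ w ∈ I, G.dist u w ≤ R * k) →
      (∀ w ∈ I, ∀ w' ∈ I, w ≠ w' → 6 * k ≤ G.dist w w') → I.card < m) :
    (nball G u (R * k)).ncard ≤ m * (nball G u (6 * k)).ncard := by
  classical
  have hfin := nball_finite hG hf u (R * k)
  let S := hfin.toFinset
  let T := S.powerset.filter (fun I => ∀ w ∈ I, ∀ w' ∈ I, w ≠ w' → 6 * k ≤ G.dist w w')
  have hT : T.Nonempty := ⟨∅, by simp [T]⟩
  obtain ⟨I, hI, hmax⟩ := Finset.exists_max_image T Finset.card hT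
  simp only [T, Finset.mem_filter, Finset.mem_powerset] at hI
  have hIS : ∀ w ∈ I, G.dist u w ≤ R * k := fun w hw => by
    have := hI.1 hw
    exact (hfin.mem_toFinset).1 this
  have hcard := h I hIS hI.2
  have hcov : nball G u (R * k) ⊆ ⋃ w ∈ I, nball G w (6 * k) := by
    intro x hx
    by_contra hcon
    simp only [Set.mem_iUnion, not_exists] at hcon
    have hfar : ∀ w ∈ I, 6 * k < G.dist w x := fun w hw => by
      have := hcon w hw
      exact not_le.1 this
    have hxI : x ∉ I := fun h1 => by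
      have := hfar x h1
      rw [SimpleGraph.dist_self] at this
      omega
    have hins : insert x I ∈ T := by
      simp only [T, Finset.mem_filter, Finset.mem_powerset]
      constructor
      · intro y hy
        rcases Finset.mem_insert.1 hy with rfl | hy
        · exact (hfin.mem_toFinset).2 hx
        · exact hI.1 hy
      · intro w hw w' hw' hne
        rcases Finset.mem_insert.1 hw with h1 | h1
        · rcases Finset.mem_insert.1 hw' with h2 | h2
          · exact absurd (h1.trans h2.symm) hne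
          · rw [h1, SimpleGraph.dist_comm]
            exact (hfar w' h2).le
        · rcases Finset.mem_insert.1 hw' with h2 | h2
          · rw [h2]
            exact (hfar w h1).le
          · exact hI.2 w h1 w' h2 hne
    have h1 := hmax _ hins
    rw [Finset.card_insert_of_notMem hxI] at h1
    omega
  have hfin2 : (⋃ w ∈ I, nball G w (6 * k)).Finite :=
    Set.Finite.biUnion I.finite_toSet (fun w _ => nball_finite hG hf w _)
  calc (nball G u (R * k)).ncard ≤ (⋃ w ∈ I, nball G w (6 * k)).ncard :=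
        Set.ncard_le_ncard hcov hfin2
    _ ≤ ∑ w ∈ I, (nball G w (6 * k)).ncard := Finset.set_ncard_biUnion_le I _
    _ = I.card * (nball G u (6 * k)).ncard := by
        rw [Finset.sum_congr rfl (fun w _ => nball_ncard_eq hG ht w u (6 * k)), Finset.sum_const,
          smul_eq_mul]
    _ ≤ m * (nball G u (6 * k)).ncard := Nat.mul_le_mul_right _ hcard.le

theorem doubling_of_subScaleInvariant {G : SimpleGraph V} (hG : G.Connected) (hf : LocFinite G)
    (ht : VertexTransitive G) (hs : SubScaleInvariant G) : VolumeDoubling G := by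
  classical
  obtain ⟨u0⟩ := hG.nonempty
  let M := (nball G u0 (2 * 12 + 6)).ncard + 1
  let m := thr M 12 12 * (12 + 1)
  let bad : ℕ → Prop := fun k => ∃ (u : V) (I : Finset V), (∀ w ∈ I, G.dist u w ≤ 12 * k) ∧
    (∀ w ∈ I, ∀ w' ∈ I, w ≠ w' → 6 * k ≤ G.dist w w') ∧ m ≤ I.card
  have hex : ∀ k, ∃ N : Set V, 1 ≤ k → IsNet G k N ∧ (bad k → ∃ (a : N) (J : Finset V)
      (y : V → N), J.card = M ∧ (∀ w ∈ J, (netGraph G k N).dist a (y w) ≤ 12) ∧
      ∀ w ∈ J, ∀ w' ∈ J, w ≠ w' → 4 * k < G.dist (y w : V) (y w')) := by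
    intro k
    rcases Nat.lt_or_ge k 1 with hk | hk
    · exact ⟨∅, fun h => by omega⟩
    by_cases hb : bad k
    · obtain ⟨u, I, h1, h2, h3⟩ := hb
      obtain ⟨N, hN, h4⟩ := exists_chain_net hG hk M 12 (by omega) u I h1 h2 h3
      exact ⟨N, fun _ => ⟨hN, fun _ => h4⟩⟩
    · obtain ⟨N, _, hN⟩ := exists_net (G := G) (k := k) (F := ∅) (fun u hu => absurd hu (by simp))
      exact ⟨N, fun _ => ⟨hN, fun h => absurd h hb⟩⟩
  choose N hN using hex
  have hlim := hs N (fun k hk => (hN k hk).1)
  have hev : ∀ᶠ k in atTop, roughConst G (netGraph G k (N k)) < 2 :=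
    hlim.eventually (gt_mem_nhds (by norm_num))
  obtain ⟨k1, hk1⟩ := eventually_atTop.1 hev
  set k0 := max k1 1 with hk0
  have hgood : ∀ k, k0 ≤ k → ¬ bad k := by
    intro k hk hb
    have hkk : 1 ≤ k := (le_max_right _ _).trans hk
    obtain ⟨hnet, hprop⟩ := hN k hkk
    obtain ⟨a, J, y, hJ, h1, h2⟩ := hprop hb
    have h3 := hk1 k ((le_max_left _ _).trans hk)
    unfold roughConst at h3
    rw [sInf_lt_iff] at h3
    obtain ⟨c, ⟨C, hC, rfl, f, hrough⟩, hc⟩ := h3
    have hC2 : C < 2 := by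
      by_contra hcon
      push Not at hcon
      have : ENNReal.ofReal 2 ≤ ENNReal.ofReal C := ENNReal.ofReal_le_ofReal hcon
      rw [ENNReal.ofReal_ofNat] at this
      exact absurd hc (not_lt.2 this)
    have h4 := card_le_of_rough hG hf ht (netGraph_connected hG hkk hnet) C hC2 f hrough 12 a J y
      h1 h2 u0
    omega
  have hcov : ∀ k, k0 ≤ k → (nball G u0 (12 * k)).ncard ≤ m * (nball G u0 (6 * k)).ncard := by
    intro k hk
    apply cover_bound hG hf ht k 12 m ((le_max_right _ _).trans hk) u0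
    intro I h1 h2
    by_contra hcon
    push Not at hcon
    exact hgood k hk ⟨u0, I, h1, h2, hcon⟩
  have hmono : ∀ a b : ℕ, a ≤ b → (nball G u0 a).ncard ≤ (nball G u0 b).ncard := by
    intro a b hab
    apply Set.ncard_le_ncard _ (nball_finite hG hf u0 b)
    intro w hw
    exact le_trans (show G.dist u0 w ≤ a from hw) hab
  have hpos : ∀ a : ℕ, 1 ≤ (nball G u0 a).ncard := by
    intro a
    exact (Set.ncard_pos (nball_finite hG hf u0 a)).2 ⟨u0, by show G.dist u0 u0 ≤ a; simp⟩
  let c := m * m + (nball G u0 (12 * k0 + 1)).ncard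
  have hc1 : 1 ≤ c := by
    have := hpos (12 * k0 + 1)
    omega
  have hmain : ∀ n : ℕ, (nball G u0 (2 * n + 1)).ncard ≤ c * (nball G u0 n).ncard := by
    intro n
    rcases Nat.lt_or_ge n (6 * k0) with hn | hn
    · calc (nball G u0 (2 * n + 1)).ncard ≤ (nball G u0 (12 * k0 + 1)).ncard :=
            hmono _ _ (by omega)
        _ ≤ c := Nat.le_add_left _ _
        _ ≤ c * (nball G u0 n).ncard := Nat.le_mul_of_pos_right _ (hpos n)
    · have hkk : 1 ≤ k0 := le_max_right _ _
      have h1 : k0 ≤ n / 6 := by omega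
      calc (nball G u0 (2 * n + 1)).ncard ≤ (nball G u0 (12 * (2 * (n / 6)))).ncard :=
            hmono _ _ (by omega)
        _ ≤ m * (nball G u0 (6 * (2 * (n / 6)))).ncard := hcov _ (by omega)
        _ = m * (nball G u0 (12 * (n / 6))).ncard := by
            have : 6 * (2 * (n / 6)) = 12 * (n / 6) := by ring
            rw [this]
        _ ≤ m * (m * (nball G u0 (6 * (n / 6))).ncard) := Nat.mul_le_mul_left _ (hcov _ h1)
        _ = m * m * (nball G u0 (6 * (n / 6))).ncard := by ring
        _ ≤ m * m * (nball G u0 n).ncard := Nat.mul_le_mul_left _ (hmono _ _ (by omega))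
        _ ≤ c * (nball G u0 n).ncard := Nat.mul_le_mul_right _ (Nat.le_add_right _ _)
  refine ⟨c, by exact_mod_cast hc1, fun v r hr => ?_⟩
  rw [ball_eq_nball G v r hr.le, ball_eq_nball G v (2 * r) (by linarith),
    nball_ncard_eq hG ht v u0, nball_ncard_eq hG ht v u0]
  have h1 : ⌊2 * r⌋₊ ≤ 2 * ⌊r⌋₊ + 1 := by
    have h2 : 2 * r < ((2 * ⌊r⌋₊ + 1 : ℕ) : ℝ) + 1 := by
      have := Nat.lt_floor_add_one r
      push_cast
      linarith
    have h3 : ⌊2 * r⌋₊ < 2 * ⌊r⌋₊ + 1 + 1 := by
      rw [Nat.floor_lt (by linarith)]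
      push_cast
      push_cast at h2
      linarith
    omega
  have h2 := (hmono _ _ h1).trans (hmain ⌊r⌋₊)
  exact_mod_cast h2

end Pool.Agent.W531.SI
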